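import Mathlib

set_option autoImplicit false

open MeasureTheory BoundedContinuousFunction
open scoped ENNReal NNReal

namespace Pool.Agent.Results.MP_fa1f9f_an.LossOne

/-- `B(D)`, the Banach space of bounded real functions on the set `D` (with the discrete
topology every function is continuous) with the sup norm. -/
abbrev B (D : Type) [TopologicalSpace D] [DiscreteTopology D] : Type := D →ᵇ ℝ

/-- Standard information: the point evaluations `f ↦ f x`, `x ∈ D`. -/
def stdInfo (D : Type) [TopologicalSpace D] [DiscreteTopology D] : Set (B D →L[ℝ] ℝ) :=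
  {L | ∃ x : D, ∀ f : B D, L f = f x}

/-- Arbitrary linear information: all bounded linear functionals on `B(D)`. -/
def linInfo (D : Type) [TopologicalSpace D] [DiscreteTopology D] : Set (B D →L[ℝ] ℝ) :=
  Set.univ

/-- A deterministic (adaptive) algorithm: the number `cost` of pieces of information it uses, the
choice of the next functional as a function of the list of the answers obtained so far, and the
output as a function of the list of all answers. -/
structure DetAlg (D : Type) [TopologicalSpace D] [DiscreteTopology D] where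
  cost : ℕ
  functional : List ℝ → (B D →L[ℝ] ℝ)
  output : List ℝ → B D

/-- The list of the first `k` answers `L₁(f), …, L_k(f)` obtained by the algorithm on the
input `f`. -/
noncomputable def DetAlg.answers {D : Type} [TopologicalSpace D] [DiscreteTopology D] (A : DetAlg D) (f : B D) :
    ℕ → List ℝ
  | 0 => []
  | k + 1 => A.answers f k ++ [A.functional (A.answers f k) f]

/-- The output `A(f)` of the algorithm on the input `f`. -/
noncomputable def DetAlg.run {D : Type} [TopologicalSpace D] [DiscreteTopology D] (A : DetAlg D) (f : B D) :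
    B D :=
  A.output (A.answers f A.cost)

/-- The `n`-th minimal error `e_n^ran(APP_∞, F, Λ)`: the infimum of
`sup_{f ∈ F} 𝔼 ‖f - A^ω(f)‖_∞` over all randomized algorithms `(A^ω)` indexed by a probability
space `(Ω, μ)`, each `A^ω` using at most `n` pieces of information, all from the class `Λ`. -/
noncomputable def ranError {D : Type} [TopologicalSpace D] [DiscreteTopology D]
    (Λ : Set (B D →L[ℝ] ℝ)) (F : Set (B D)) (n : ℕ) : ℝ≥0∞ :=
  sInf {e : ℝ≥0∞ | ∃ (Ω : Type) (_ : MeasurableSpace Ω) (μ : Measure Ω) (A : Ω → DetAlg D),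
    IsProbabilityMeasure μ ∧
    (∀ ω, (A ω).cost ≤ n ∧ ∀ l : List ℝ, (A ω).functional l ∈ Λ) ∧
    (∀ f ∈ F, Measurable fun ω => ‖f - (A ω).run f‖) ∧
    e = ⨆ f ∈ F, ∫⁻ ω, ENNReal.ofReal ‖f - (A ω).run f‖ ∂μ}

/-- `rate (a_n) = sup {α ≥ 0 : sup_{n ≥ 1} n^α a_n < ∞}`. -/
noncomputable def rate (a : ℕ → ℝ≥0∞) : ℝ≥0∞ :=
  sSup {α : ℝ≥0∞ | α ≠ ∞ ∧ (⨆ (n : ℕ) (_ : 1 ≤ n), (n : ℝ≥0∞) ^ α.toReal * a n) < ∞}

/-! ### The class `F` -/

/-- The class `F` of all `f` with `∑ (x+1) |f x| ≤ 1`. -/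
def F : Set (B ℕ) := {f | ∀ N : ℕ, ∑ x ∈ Finset.range N, ((x : ℝ) + 1) * |f x| ≤ 1}

lemma F_convex : Convex ℝ F := by
  intro f hf g hg a b ha hb hab N
  calc ∑ x ∈ Finset.range N, ((x : ℝ) + 1) * |(a • f + b • g) x|
      ≤ ∑ x ∈ Finset.range N, (a * (((x : ℝ) + 1) * |f x|) + b * (((x : ℝ) + 1) * |g x|)) := by
        apply Finset.sum_le_sum
        intro x _
        have h1 : |(a • f + b • g) x| ≤ a * |f x| + b * |g x| := by
          simp only [BoundedContinuousFunction.coe_add, BoundedContinuousFunction.coe_smul,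
            Pi.add_apply, smul_eq_mul]
          refine (abs_add_le _ _).trans ?_
          rw [abs_mul, abs_mul, abs_of_nonneg ha, abs_of_nonneg hb]
        have h2 : (0 : ℝ) ≤ (x : ℝ) + 1 := by positivity
        nlinarith [mul_le_mul_of_nonneg_left h1 h2]
    _ = a * ∑ x ∈ Finset.range N, ((x : ℝ) + 1) * |f x|
        + b * ∑ x ∈ Finset.range N, ((x : ℝ) + 1) * |g x| := by
        rw [Finset.sum_add_distrib, Finset.mul_sum, Finset.mul_sum]
    _ ≤ a * 1 + b * 1 := by
        gcongr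
        · exact hf N
        · exact hg N
    _ = 1 := by linarith

lemma F_symm : ∀ f ∈ F, -f ∈ F := by
  intro f hf N
  simpa using hf N

lemma F_tail {f : B ℕ} (hf : f ∈ F) (m N : ℕ) :
    ∑ x ∈ Finset.Ico m N, |f x| ≤ 1 / ((m : ℝ) + 1) := by
  have h0 : (0 : ℝ) < (m : ℝ) + 1 := by positivity
  rw [le_div_iff₀ h0, Finset.sum_mul]
  rcases le_or_gt m N with hmN | hmN
  swap
  · rw [Finset.Ico_eq_empty (by omega)]; simp
  calc ∑ x ∈ Finset.Ico m N, |f x| * ((m : ℝ) + 1)
      ≤ ∑ x ∈ Finset.Ico m N, ((x : ℝ) + 1) * |f x| := by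
        apply Finset.sum_le_sum
        intro x hx
        have : (m : ℝ) ≤ (x : ℝ) := by exact_mod_cast (Finset.mem_Ico.mp hx).1
        nlinarith [abs_nonneg (f x)]
    _ ≤ ∑ x ∈ Finset.range N, ((x : ℝ) + 1) * |f x| := by
        apply Finset.sum_le_sum_of_subset_of_nonneg
        · intro x hx
          rw [Finset.mem_range]
          exact (Finset.mem_Ico.mp hx).2
        · intro x _ _
          positivity
    _ ≤ 1 := hf N

lemma F_apply {f : B ℕ} (hf : f ∈ F) (x : ℕ) : |f x| ≤ 1 / ((x : ℝ) + 1) := by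
  have := F_tail hf x (x + 1)
  simpa using this

lemma F_norm {f : B ℕ} (hf : f ∈ F) : ‖f‖ ≤ 1 := by
  rw [BoundedContinuousFunction.norm_le zero_le_one]
  intro x
  rw [Real.norm_eq_abs]
  refine (F_apply hf x).trans ?_
  rw [div_le_one (by positivity)]
  linarith [(Nat.cast_nonneg x : (0 : ℝ) ≤ x)]

/-- The function `c δ_x`. -/
noncomputable def sg (x : ℕ) (c : ℝ) : B ℕ :=
  BoundedContinuousFunction.ofNormedAddCommGroupDiscrete (fun y => if y = x then c else 0) |c| (by
    intro y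
    by_cases h : y = x
    · simp [h]
    · simp [h])

lemma sg_apply (x y : ℕ) (c : ℝ) : sg x c y = if y = x then c else 0 := rfl

lemma sg_mem {n x : ℕ} {c : ℝ} (hn : 1 ≤ n) (hx : x < 2 * n) (hc : |c| ≤ 1 / (2 * (n : ℝ))) :
    sg x c ∈ F := by
  intro N
  have hn' : (0 : ℝ) < n := by exact_mod_cast hn
  have h2 : (x : ℝ) + 1 ≤ 2 * (n : ℝ) := by
    have : x + 1 ≤ 2 * n := hx
    exact_mod_cast this
  calc ∑ y ∈ Finset.range N, ((y : ℝ) + 1) * |sg x c y|
      = ∑ y ∈ Finset.range N, if y = x then ((x : ℝ) + 1) * |c| else 0 := by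
        apply Finset.sum_congr rfl
        intro y _
        rw [sg_apply]
        by_cases h : y = x
        · simp [h]
        · simp [h]
    _ ≤ ((x : ℝ) + 1) * |c| := by
        rw [Finset.sum_ite_eq']
        split_ifs
        · exact le_rfl
        · positivity
    _ ≤ (2 * (n : ℝ)) * (1 / (2 * (n : ℝ))) := by gcongr
    _ = 1 := by field_simp

/-! ### Lower bound for function values -/

lemma answers_eq_zero_run {A : DetAlg ℕ} {p : List ℝ → ℕ}
    (hp : ∀ l, ∀ f : B ℕ, A.functional l f = f (p l)) {f : B ℕ} :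
    ∀ k : ℕ, (∀ j < k, f (p (A.answers 0 j)) = 0) → A.answers f k = A.answers 0 k
  | 0, _ => rfl
  | k + 1, h => by
    have ih := answers_eq_zero_run hp (f := f) k (fun j hj => h j (by omega))
    simp only [DetAlg.answers]
    rw [ih, hp, hp, h k (by omega)]
    simp

lemma det_lower {A : DetAlg ℕ} {n : ℕ} (hn : 1 ≤ n) (hc : A.cost ≤ n)
    (hA : ∀ l, A.functional l ∈ stdInfo ℕ) :
    1 ≤ ∑ x ∈ Finset.range (2 * n),
      (‖sg x (1 / (2 * (n : ℝ))) - A.run (sg x (1 / (2 * (n : ℝ))))‖ +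
        ‖sg x (-(1 / (2 * (n : ℝ)))) - A.run (sg x (-(1 / (2 * (n : ℝ)))))‖) := by
  classical
  have hn' : (0 : ℝ) < n := by exact_mod_cast hn
  choose p hp using hA
  set Q : Finset ℕ := (Finset.range A.cost).image (fun j => p (A.answers 0 j)) with hQ
  have hQc : Q.card ≤ n := (Finset.card_image_le).trans (by simpa using hc)
  have hrun : ∀ x, x ∉ Q → ∀ c : ℝ, A.run (sg x c) = A.run 0 := by
    intro x hx c
    unfold DetAlg.run
    rw [answers_eq_zero_run hp A.cost]
    intro j hj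
    rw [sg_apply, if_neg]
    rintro rfl
    exact hx (Finset.mem_image.mpr ⟨j, Finset.mem_range.mpr hj, rfl⟩)
  have hterm : ∀ x ∈ Finset.range (2 * n) \ Q, 1 / (n : ℝ) ≤
      ‖sg x (1 / (2 * (n : ℝ))) - A.run (sg x (1 / (2 * (n : ℝ))))‖ +
        ‖sg x (-(1 / (2 * (n : ℝ)))) - A.run (sg x (-(1 / (2 * (n : ℝ)))))‖ := by
    intro x hx
    have hxQ := (Finset.mem_sdiff.mp hx).2
    rw [hrun x hxQ, hrun x hxQ]
    have h1 := norm_sub_le_norm_sub_add_norm_sub (sg x (1 / (2 * (n : ℝ)))) (A.run 0)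
      (sg x (-(1 / (2 * (n : ℝ)))))
    rw [norm_sub_rev (A.run 0)] at h1
    have h2 := BoundedContinuousFunction.norm_coe_le_norm
      (sg x (1 / (2 * (n : ℝ))) - sg x (-(1 / (2 * (n : ℝ))))) x
    rw [BoundedContinuousFunction.sub_apply, sg_apply, sg_apply, if_pos rfl, if_pos rfl,
      Real.norm_eq_abs] at h2
    have h3 : |1 / (2 * (n : ℝ)) - -(1 / (2 * (n : ℝ)))| = 1 / (n : ℝ) := by
      rw [abs_of_nonneg (by rw [sub_neg_eq_add]; positivity)]
      field_simp
      norm_num
    linarith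
  have hcard : n ≤ (Finset.range (2 * n) \ Q).card := by
    have := Finset.le_card_sdiff Q (Finset.range (2 * n))
    rw [Finset.card_range] at this
    omega
  calc (1 : ℝ) = n • (1 / (n : ℝ)) := by rw [nsmul_eq_mul]; field_simp
    _ ≤ (Finset.range (2 * n) \ Q).card • (1 / (n : ℝ)) := by
        apply nsmul_le_nsmul_left (by positivity) hcard
    _ ≤ ∑ x ∈ Finset.range (2 * n) \ Q,
      (‖sg x (1 / (2 * (n : ℝ))) - A.run (sg x (1 / (2 * (n : ℝ))))‖ +
        ‖sg x (-(1 / (2 * (n : ℝ)))) - A.run (sg x (-(1 / (2 * (n : ℝ)))))‖) :=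
        Finset.card_nsmul_le_sum _ _ _ hterm
    _ ≤ _ := by
        apply Finset.sum_le_sum_of_subset_of_nonneg Finset.sdiff_subset
        intro x _ _
        positivity

lemma std_lower {n : ℕ} (hn : 1 ≤ n) :
    1 / (4 * (n : ℝ≥0∞)) ≤ ranError (stdInfo ℕ) F n := by
  apply le_sInf
  rintro e ⟨Ω, mΩ, μ, A, hμ, hA, hmeas, rfl⟩
  set c : ℝ := 1 / (2 * (n : ℝ)) with hc
  have hn' : (0 : ℝ) < n := by exact_mod_cast hn
  have hcabs : |c| ≤ 1 / (2 * (n : ℝ)) := by
    rw [hc, abs_of_nonneg (by positivity)]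
  have hcabs' : |(-c)| ≤ 1 / (2 * (n : ℝ)) := by rw [abs_neg]; exact hcabs
  set e := ⨆ f ∈ F, ∫⁻ ω, ENNReal.ofReal ‖f - (A ω).run f‖ ∂μ with he
  have hle : ∀ f ∈ F, ∫⁻ ω, ENNReal.ofReal ‖f - (A ω).run f‖ ∂μ ≤ e := fun f hf =>
    le_iSup₂ (f := fun f (_ : f ∈ F) => ∫⁻ ω, ENNReal.ofReal ‖f - (A ω).run f‖ ∂μ) f hf
  have hm : ∀ f ∈ F, Measurable fun ω => ENNReal.ofReal ‖f - (A ω).run f‖ := fun f hf =>
    ENNReal.measurable_ofReal.comp (hmeas f hf)
  have h1 : (1 : ℝ≥0∞) ≤ ∫⁻ ω, ∑ x ∈ Finset.range (2 * n),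
      (ENNReal.ofReal ‖sg x c - (A ω).run (sg x c)‖ +
        ENNReal.ofReal ‖sg x (-c) - (A ω).run (sg x (-c))‖) ∂μ := by
    calc (1 : ℝ≥0∞) = ∫⁻ _, 1 ∂μ := by simp
      _ ≤ _ := by
        apply lintegral_mono
        intro ω
        have := det_lower hn (hA ω).1 (hA ω).2
        rw [← ENNReal.ofReal_one]
        refine (ENNReal.ofReal_le_ofReal this).trans ?_
        rw [ENNReal.ofReal_sum_of_nonneg (fun x _ => by positivity)]
        apply le_of_eq
        apply Finset.sum_congr rfl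
        intro x _
        rw [ENNReal.ofReal_add (norm_nonneg _) (norm_nonneg _)]
  rw [lintegral_finsetSum'] at h1
  · have h2 : ∀ x ∈ Finset.range (2 * n),
        ∫⁻ ω, (ENNReal.ofReal ‖sg x c - (A ω).run (sg x c)‖ +
          ENNReal.ofReal ‖sg x (-c) - (A ω).run (sg x (-c))‖) ∂μ ≤ e + e := by
      intro x hx
      rw [lintegral_add_left (hm _ (sg_mem hn (Finset.mem_range.mp hx) hcabs))]
      exact add_le_add (hle _ (sg_mem hn (Finset.mem_range.mp hx) hcabs))
        (hle _ (sg_mem hn (Finset.mem_range.mp hx) hcabs'))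
    have h3 := h1.trans (Finset.sum_le_sum h2)
    rw [Finset.sum_const, Finset.card_range, nsmul_eq_mul] at h3
    apply ENNReal.div_le_of_le_mul
    calc (1 : ℝ≥0∞) ≤ ((2 * n : ℕ) : ℝ≥0∞) * (e + e) := h3
      _ = e * (4 * (n : ℝ≥0∞)) := by push_cast; ring
  · intro x hx
    exact ((hm _ (sg_mem hn (Finset.mem_range.mp hx) hcabs)).add
      (hm _ (sg_mem hn (Finset.mem_range.mp hx) hcabs'))).aemeasurable

/-! ### Nonadaptive algorithms -/

/-- The bounded function equal to `v` on `{0, …, M-1}` and to `0` elsewhere. -/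
noncomputable def cut (M : ℕ) (v : ℕ → ℝ) : B ℕ :=
  BoundedContinuousFunction.ofNormedAddCommGroupDiscrete (fun x => if x < M then v x else 0)
    (∑ x ∈ Finset.range M, |v x|) (by
    intro x
    by_cases h : x < M
    · rw [if_pos h, Real.norm_eq_abs]
      exact Finset.single_le_sum (f := fun x => |v x|) (fun _ _ => abs_nonneg _)
        (Finset.mem_range.mpr h)
    · rw [if_neg h, norm_zero]
      exact Finset.sum_nonneg fun _ _ => abs_nonneg _)

lemma cut_apply (M : ℕ) (v : ℕ → ℝ) (x : ℕ) : cut M v x = if x < M then v x else 0 := rfl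

/-- The nonadaptive algorithm with functionals `L 0, …, L (n-1)` and output map `out`. -/
noncomputable def NA (n : ℕ) (L : ℕ → (B ℕ →L[ℝ] ℝ)) (out : (ℕ → ℝ) → B ℕ) : DetAlg ℕ where
  cost := n
  functional := fun l => L l.length
  output := fun l => out (fun j => l.getD j 0)

lemma NA_answers (n : ℕ) (L : ℕ → (B ℕ →L[ℝ] ℝ)) (out : (ℕ → ℝ) → B ℕ) (f : B ℕ) :
    ∀ k : ℕ, (NA n L out).answers f k = (List.range k).map (fun j => L j f)
  | 0 => rfl
  | k + 1 => by
    simp only [DetAlg.answers]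
    rw [NA_answers n L out f k, List.range_succ, List.map_append]
    simp [NA]

lemma NA_run (n : ℕ) (L : ℕ → (B ℕ →L[ℝ] ℝ)) (out : (ℕ → ℝ) → B ℕ) (f : B ℕ) :
    (NA n L out).run f = out (fun j => if j < n then L j f else 0) := by
  unfold DetAlg.run
  rw [NA_answers]
  show out _ = _
  congr 1
  funext j
  show ((List.range n).map (fun j => L j f)).getD j 0 = _
  by_cases h : j < n
  · simp [List.getD, h]
  · rw [if_neg h, List.getD_eq_default]
    simpa using h

/-- A deterministic algorithm bounds the minimal randomized error. -/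
lemma ranError_le_det {Λ : Set (B ℕ →L[ℝ] ℝ)} {G : Set (B ℕ)} {n : ℕ} (A : DetAlg ℕ)
    (hc : A.cost ≤ n) (hA : ∀ l, A.functional l ∈ Λ) {e : ℝ} (he : ∀ f ∈ G, ‖f - A.run f‖ ≤ e) :
    ranError Λ G n ≤ ENNReal.ofReal e := by
  have h1 : ranError Λ G n ≤ ⨆ f ∈ G, ∫⁻ _ : Unit, ENNReal.ofReal ‖f - A.run f‖
      ∂(Measure.dirac ()) := by
    apply sInf_le
    exact ⟨Unit, inferInstance, Measure.dirac (), fun _ => A, inferInstance,
      fun _ => ⟨hc, hA⟩, fun f _ => measurable_const, rfl⟩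
  refine h1.trans ?_
  apply iSup₂_le
  intro f hf
  simp only [lintegral_const, measure_univ, mul_one]
  exact ENNReal.ofReal_le_ofReal (he f hf)

lemma std_upper (n : ℕ) : ranError (stdInfo ℕ) F n ≤ ENNReal.ofReal (1 / ((n : ℝ) + 1)) := by
  apply ranError_le_det (NA n (fun j => BoundedContinuousFunction.evalCLM ℝ j) (cut n)) le_rfl
  · intro l
    exact ⟨l.length, fun f => rfl⟩
  · intro f hf
    rw [NA_run, BoundedContinuousFunction.norm_le (by positivity)]
    intro x
    rw [BoundedContinuousFunction.sub_apply, cut_apply, Real.norm_eq_abs]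
    by_cases h : x < n
    · rw [if_pos h, if_pos h]
      simp only [BoundedContinuousFunction.evalCLM_apply, sub_self, abs_zero]
      positivity
    · rw [if_neg h, sub_zero]
      refine (F_apply hf x).trans ?_
      have : (n : ℝ) ≤ (x : ℝ) := by exact_mod_cast (not_lt.mp h)
      gcongr

/-! ### A median -/

/-- A median of a finite family of reals. -/
noncomputable def med {d : ℕ} (v : Fin d → ℝ) : ℝ :=
  sInf {c : ℝ | d < 2 * (Finset.univ.filter (fun r => v r ≤ c)).card}

lemma med_close {d : ℕ} (v : Fin d → ℝ) {a τ : ℝ}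
    (h : d < 2 * (Finset.univ.filter (fun r => |v r - a| ≤ τ)).card) : |med v - a| ≤ τ := by
  have hlow : ∀ c ∈ {c : ℝ | d < 2 * (Finset.univ.filter (fun r => v r ≤ c)).card}, a - τ ≤ c := by
    intro c hc
    by_contra hlt
    push Not at hlt
    have hdis : Disjoint (Finset.univ.filter (fun r => v r ≤ c))
        (Finset.univ.filter (fun r => |v r - a| ≤ τ)) := by
      rw [Finset.disjoint_left]
      intro r hr hr'
      rw [Finset.mem_filter] at hr hr'
      have := (abs_le.mp hr'.2).1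
      linarith [hr.2]
    have hcard := Finset.card_union_of_disjoint hdis
    have hle : ((Finset.univ.filter (fun r => v r ≤ c)) ∪
        (Finset.univ.filter (fun r => |v r - a| ≤ τ))).card ≤ d := by
      refine (Finset.card_le_univ _).trans ?_
      simp
    have hc' : d < 2 * (Finset.univ.filter (fun r => v r ≤ c)).card := hc
    omega
  have hmem : a + τ ∈ {c : ℝ | d < 2 * (Finset.univ.filter (fun r => v r ≤ c)).card} := by
    refine lt_of_lt_of_le h ?_
    apply Nat.mul_le_mul_left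
    apply Finset.card_le_card
    intro r hr
    rw [Finset.mem_filter] at hr ⊢
    refine ⟨hr.1, ?_⟩
    have := (abs_le.mp hr.2).2
    linarith
  rw [abs_le]
  constructor
  · have : a - τ ≤ med v := le_csInf ⟨_, hmem⟩ hlow
    linarith
  · have : med v ≤ a + τ := csInf_le ⟨a - τ, hlow⟩ hmem
    linarith

/-! ### Counting -/

lemma card_collide {M w : ℕ} {x y : Fin M} (hxy : y ≠ x) :
    (Finset.univ.filter (fun g : Fin M → Fin w => g y = g x)).card * w = w ^ M := by
  classical
  have e := Equiv.funSplitAt y (Fin w)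
  have h1 : (Finset.univ.filter (fun g : Fin M → Fin w => g y = g x)).card
      = Fintype.card ({j // j ≠ y} → Fin w) := by
    rw [← Finset.card_univ]
    symm
    refine Finset.card_bij (fun u _ => (Equiv.funSplitAt y (Fin w)).symm (u ⟨x, hxy.symm⟩, u)) ?_ ?_ ?_
    · intro u _
      rw [Finset.mem_filter]
      refine ⟨Finset.mem_univ _, ?_⟩
      simp [Equiv.funSplitAt, Equiv.piSplitAt, hxy.symm]
    · intro u _ u' _ h
      have := (Equiv.funSplitAt y (Fin w)).symm.injective h
      exact (Prod.ext_iff.mp this).2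
    · intro g hg
      rw [Finset.mem_filter] at hg
      refine ⟨fun j => g j, Finset.mem_univ _, ?_⟩
      rw [Equiv.symm_apply_eq]
      apply Prod.ext
      · simp [Equiv.funSplitAt, Equiv.piSplitAt, hg.2]
      · simp [Equiv.funSplitAt, Equiv.piSplitAt]
  rw [h1, Fintype.card_fun, Fintype.card_fin]
  have h2 : Fintype.card {j : Fin M // j ≠ y} + 1 = M := by
    have h3 : Fintype.card {j : Fin M // j ≠ y} = M - 1 := by
      have := Fintype.card_subtype_compl (fun j : Fin M => j = y)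
      rw [Fintype.card_subtype_eq, Fintype.card_fin] at this
      rw [← this]
    have hM : 0 < M := lt_of_le_of_lt (Nat.zero_le _) x.2
    omega
  rw [← pow_succ, h2]

/-- If `B` has density at most `1/16`, then few `h` have at least half of their entries in `B`. -/
lemma card_half_bad {X : Type} [Fintype X] [DecidableEq X] (Bd : Finset X)
    (hB : 16 * Bd.card ≤ Fintype.card X) (d : ℕ) :
    2 ^ d * (Finset.univ.filter (fun h : Fin d → X =>
      2 * (Finset.univ.filter (fun r => h r ∉ Bd)).card ≤ d)).card ≤ Fintype.card X ^ d := by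
  classical
  -- union over the sets of bad positions
  have hsub : (Finset.univ.filter (fun h : Fin d → X =>
      2 * (Finset.univ.filter (fun r => h r ∉ Bd)).card ≤ d)) ⊆
      (Finset.univ.filter (fun S : Finset (Fin d) => d ≤ 2 * S.card)).biUnion
        (fun S => Fintype.piFinset (fun r => if r ∈ S then Bd else Finset.univ)) := by
    intro h hh
    rw [Finset.mem_filter] at hh
    rw [Finset.mem_biUnion]
    refine ⟨Finset.univ.filter (fun r => h r ∈ Bd), ?_, ?_⟩
    · rw [Finset.mem_filter]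
      refine ⟨Finset.mem_univ _, ?_⟩
      have := Finset.card_filter_add_card_filter_not (s := (Finset.univ : Finset (Fin d)))
        (fun r => h r ∈ Bd)
      rw [Finset.card_univ, Fintype.card_fin] at this
      omega
    · rw [Fintype.mem_piFinset]
      intro r
      by_cases hr : h r ∈ Bd
      · simp [hr]
      · simp [hr]
  have hS : ∀ S ∈ (Finset.univ.filter (fun S : Finset (Fin d) => d ≤ 2 * S.card)),
      4 ^ d * (Fintype.piFinset (fun r => if r ∈ S then Bd else (Finset.univ : Finset X))).card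
        ≤ Fintype.card X ^ d := by
    intro S hS
    rw [Finset.mem_filter] at hS
    rw [Fintype.card_piFinset]
    have h1 : ∏ r : Fin d, (if r ∈ S then Bd else (Finset.univ : Finset X)).card
        = Bd.card ^ S.card * Fintype.card X ^ (d - S.card) := by
      have : ∀ r : Fin d, (if r ∈ S then Bd else (Finset.univ : Finset X)).card
          = if r ∈ S then Bd.card else Fintype.card X := by
        intro r; split_ifs <;> rfl
      simp_rw [this]
      rw [Finset.prod_ite, Finset.prod_const, Finset.prod_const]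
      congr 2
      · congr 1
        ext r; simp
      · rw [Finset.filter_not, Finset.card_sdiff_of_subset (Finset.filter_subset _ _)]
        simp
    rw [h1]
    have hSd : S.card ≤ d := by simpa using Finset.card_le_univ S
    calc 4 ^ d * (Bd.card ^ S.card * Fintype.card X ^ (d - S.card))
        ≤ 4 ^ (2 * S.card) * (Bd.card ^ S.card * Fintype.card X ^ (d - S.card)) := by
          gcongr
          · norm_num
          · exact hS.2
      _ = (16 * Bd.card) ^ S.card * Fintype.card X ^ (d - S.card) := by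
          rw [pow_mul, mul_pow]; norm_num; ring
      _ ≤ Fintype.card X ^ S.card * Fintype.card X ^ (d - S.card) := by gcongr
      _ = Fintype.card X ^ d := by rw [← pow_add]; congr 1; omega
  have h2 : 4 ^ d * (Finset.univ.filter (fun h : Fin d → X =>
      2 * (Finset.univ.filter (fun r => h r ∉ Bd)).card ≤ d)).card
      ≤ 2 ^ d * Fintype.card X ^ d := by
    calc 4 ^ d * (Finset.univ.filter (fun h : Fin d → X =>
        2 * (Finset.univ.filter (fun r => h r ∉ Bd)).card ≤ d)).card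
        ≤ 4 ^ d * ∑ S ∈ (Finset.univ.filter (fun S : Finset (Fin d) => d ≤ 2 * S.card)),
            (Fintype.piFinset (fun r => if r ∈ S then Bd else (Finset.univ : Finset X))).card := by
          gcongr
          exact (Finset.card_le_card hsub).trans Finset.card_biUnion_le
      _ ≤ ∑ S ∈ (Finset.univ.filter (fun S : Finset (Fin d) => d ≤ 2 * S.card)),
            Fintype.card X ^ d := by
          rw [Finset.mul_sum]
          exact Finset.sum_le_sum hS
      _ ≤ 2 ^ d * Fintype.card X ^ d := by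
          rw [Finset.sum_const, smul_eq_mul]
          gcongr
          refine (Finset.card_le_univ _).trans ?_
          simp
  have h3 : (4 : ℕ) ^ d = 2 ^ d * 2 ^ d := by rw [← mul_pow]; norm_num
  rw [h3, mul_assoc] at h2
  exact Nat.le_of_mul_le_mul_left h2 (by positivity)

/-- The total collision weight of `x` under the hash function `g`. -/
noncomputable def coll {M w : ℕ} (a : Fin M → ℝ) (g : Fin M → Fin w) (x : Fin M) : ℝ :=
  ∑ y, if y ≠ x ∧ g y = g x then a y else 0

/-- Markov inequality for the collision weight of a uniformly random hash function. -/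
lemma card_coll_bad {M w : ℕ} (hw : 0 < w) {a : Fin M → ℝ} (ha : ∀ y, 0 ≤ a y) {R : ℝ}
    (hR : 0 < R) (haR : ∑ y, a y ≤ R) (x : Fin M) :
    16 * (Finset.univ.filter (fun g : Fin M → Fin w => 16 * R / w < coll a g x)).card
      ≤ Fintype.card (Fin M → Fin w) := by
  classical
  have hw' : (0 : ℝ) < w := by exact_mod_cast hw
  have h1 : ∑ g : Fin M → Fin w, coll a g x ≤ R * ((w : ℝ) ^ M / w) := by
    unfold coll
    rw [Finset.sum_comm]
    calc ∑ y, ∑ g : Fin M → Fin w, (if y ≠ x ∧ g y = g x then a y else 0)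
        ≤ ∑ y, a y * ((w : ℝ) ^ M / w) := by
          apply Finset.sum_le_sum
          intro y _
          by_cases hyx : y = x
          · simp only [hyx, ne_eq, not_true_eq_false, false_and, if_false, Finset.sum_const_zero]
            have := ha x
            positivity
          · have h2 : ∀ g : Fin M → Fin w, (if y ≠ x ∧ g y = g x then a y else 0)
                = if g y = g x then a y else 0 := by
              intro g; simp [hyx]
            simp_rw [h2]
            rw [← Finset.sum_filter, Finset.sum_const, nsmul_eq_mul]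
            have h3 := card_collide (w := w) hyx
            have h4 : ((Finset.univ.filter (fun g : Fin M → Fin w => g y = g x)).card : ℝ)
                = (w : ℝ) ^ M / w := by
              rw [eq_div_iff hw'.ne']
              exact_mod_cast h3
            rw [h4, mul_comm]
      _ = (∑ y, a y) * ((w : ℝ) ^ M / w) := by rw [Finset.sum_mul]
      _ ≤ R * ((w : ℝ) ^ M / w) := by gcongr
  have hcoll : ∀ g : Fin M → Fin w, 0 ≤ coll a g x := by
    intro g
    apply Finset.sum_nonneg
    intro y _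
    split_ifs
    · exact ha y
    · exact le_rfl
  have h2 : (16 * R / w) * ((Finset.univ.filter
      (fun g : Fin M → Fin w => 16 * R / w < coll a g x)).card : ℝ)
      ≤ ∑ g : Fin M → Fin w, coll a g x := by
    calc (16 * R / w) * ((Finset.univ.filter
        (fun g : Fin M → Fin w => 16 * R / w < coll a g x)).card : ℝ)
        = ∑ g ∈ Finset.univ.filter (fun g : Fin M → Fin w => 16 * R / w < coll a g x),
            (16 * R / w) := by rw [Finset.sum_const, nsmul_eq_mul, mul_comm]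
      _ ≤ ∑ g ∈ Finset.univ.filter (fun g : Fin M → Fin w => 16 * R / w < coll a g x),
            coll a g x := by
          apply Finset.sum_le_sum
          intro g hg
          exact (Finset.mem_filter.mp hg).2.le
      _ ≤ ∑ g : Fin M → Fin w, coll a g x :=
          Finset.sum_le_sum_of_subset_of_nonneg (Finset.filter_subset _ _)
            (fun g _ _ => hcoll g)
  have h3 := h2.trans h1
  have h4 : (16 : ℝ) * ((Finset.univ.filter
      (fun g : Fin M → Fin w => 16 * R / w < coll a g x)).card : ℝ) ≤ (w : ℝ) ^ M := by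
    have e1 : R * ((w : ℝ) ^ M / w) = (R / w) * (w : ℝ) ^ M := by ring
    have e2 : (16 * R / w) * ((Finset.univ.filter
      (fun g : Fin M → Fin w => 16 * R / w < coll a g x)).card : ℝ)
      = (R / w) * (16 * ((Finset.univ.filter
      (fun g : Fin M → Fin w => 16 * R / w < coll a g x)).card : ℝ)) := by ring
    rw [e1, e2] at h3
    exact le_of_mul_le_mul_left h3 (by positivity)
  rw [Fintype.card_fun, Fintype.card_fin, Fintype.card_fin]
  exact_mod_cast h4

/-! ### The sketch -/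

/-- The measured functionals: point evaluations at `j < N₀`, and bucket sums
`∑_{N₀ ≤ y < M, h r y = b} f y` for `j = N₀ + r w + b`. -/
noncomputable def skL {M w d : ℕ} (N₀ : ℕ) (h : Fin d → Fin M → Fin w) (j : ℕ) : B ℕ →L[ℝ] ℝ :=
  if j < N₀ then BoundedContinuousFunction.evalCLM ℝ j
  else ∑ r : Fin d, ∑ y : Fin M, if N₀ ≤ (y : ℕ) ∧ j = N₀ + (r : ℕ) * w + (h r y : ℕ) then
    BoundedContinuousFunction.evalCLM ℝ (y : ℕ) else 0

/-- The output of the sketch. -/
noncomputable def skOut {M w d : ℕ} (N₀ : ℕ) (h : Fin d → Fin M → Fin w) (v : ℕ → ℝ) : B ℕ :=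
  cut M (fun x => if hx : x < M then (if x < N₀ then v x else
    med (fun r : Fin d => v (N₀ + (r : ℕ) * w + (h r ⟨x, hx⟩ : ℕ)))) else 0)

/-- The sketch algorithm. -/
noncomputable def sk {M w d : ℕ} (N₀ : ℕ) (h : Fin d → Fin M → Fin w) : DetAlg ℕ :=
  NA (N₀ + d * w) (skL N₀ h) (skOut N₀ h)

lemma idx_inj {w d : ℕ} {r r' : Fin d} {b b' : Fin w} {N₀ : ℕ}
    (h : N₀ + (r : ℕ) * w + (b : ℕ) = N₀ + (r' : ℕ) * w + (b' : ℕ)) : r = r' ∧ b = b' := by
  have hw : 0 < w := lt_of_le_of_lt (Nat.zero_le _) b.2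
  have h1 : (b : ℕ) + (r : ℕ) * w = (b' : ℕ) + (r' : ℕ) * w := by omega
  have h2 : ((b : ℕ) + (r : ℕ) * w) / w = ((b' : ℕ) + (r' : ℕ) * w) / w := by rw [h1]
  rw [Nat.add_mul_div_right _ _ hw, Nat.add_mul_div_right _ _ hw, Nat.div_eq_of_lt b.2,
    Nat.div_eq_of_lt b'.2, zero_add, zero_add] at h2
  rw [h2] at h1
  exact ⟨Fin.ext h2, Fin.ext (by omega)⟩

lemma skL_low {M w d : ℕ} {N₀ : ℕ} (h : Fin d → Fin M → Fin w) {j : ℕ} (hj : j < N₀) (f : B ℕ) :
    skL N₀ h j f = f j := by
  unfold skL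
  rw [if_pos hj]
  rfl

lemma skL_high {M w d : ℕ} {N₀ : ℕ} (h : Fin d → Fin M → Fin w) (r : Fin d) (x : Fin M)
    (f : B ℕ) : skL N₀ h (N₀ + (r : ℕ) * w + (h r x : ℕ)) f
      = ∑ y : Fin M, if N₀ ≤ (y : ℕ) ∧ h r y = h r x then f (y : ℕ) else 0 := by
  unfold skL
  rw [if_neg (by omega), _root_.sum_apply, Finset.sum_eq_single r]
  · rw [_root_.sum_apply]
    apply Finset.sum_congr rfl
    intro y _
    by_cases hy : N₀ ≤ (y : ℕ) ∧ h r y = h r x
    · rw [if_pos hy, if_pos ⟨hy.1, by rw [hy.2]⟩]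
      rfl
    · rw [if_neg hy, if_neg]
      · rfl
      · rintro ⟨h1, h2⟩
        exact hy ⟨h1, (idx_inj h2).2.symm⟩
  · intro r' _ hr'
    rw [_root_.sum_apply]
    apply Finset.sum_eq_zero
    intro y _
    rw [if_neg]
    · rfl
    · rintro ⟨_, h2⟩
      exact hr' (idx_inj h2).1.symm
  · intro hr
    exact absurd (Finset.mem_univ r) hr

/-- The absolute values of the tail. -/
noncomputable def tl (M N₀ : ℕ) (f : B ℕ) (y : Fin M) : ℝ := if N₀ ≤ (y : ℕ) then |f (y : ℕ)| else 0

lemma tl_nonneg (M N₀ : ℕ) (f : B ℕ) (y : Fin M) : 0 ≤ tl M N₀ f y := by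
  unfold tl
  split_ifs
  · exact abs_nonneg _
  · exact le_rfl

lemma tl_sum {M N₀ : ℕ} {f : B ℕ} (hf : f ∈ F) : ∑ y, tl M N₀ f y ≤ 1 / ((N₀ : ℝ) + 1) := by
  have h1 : ∑ y, tl M N₀ f y = ∑ x ∈ Finset.range M, if N₀ ≤ x then |f x| else 0 := by
    unfold tl
    rw [Finset.sum_range (fun x => if N₀ ≤ x then |f x| else 0)]
  rw [h1, ← Finset.sum_filter]
  refine le_trans (le_of_eq ?_) (F_tail hf N₀ M)
  apply Finset.sum_congr _ (fun _ _ => rfl)
  ext x
  simp only [Finset.mem_filter, Finset.mem_range, Finset.mem_Ico]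
  tauto

lemma bucket_err {M w d : ℕ} {N₀ : ℕ} (h : Fin d → Fin M → Fin w) (r : Fin d) (x : Fin M)
    (hx : N₀ ≤ (x : ℕ)) (f : B ℕ) :
    |skL N₀ h (N₀ + (r : ℕ) * w + (h r x : ℕ)) f - f (x : ℕ)| ≤ coll (tl M N₀ f) (h r) x := by
  rw [skL_high]
  have h1 : f (x : ℕ) = ∑ y : Fin M, if y = x then f (y : ℕ) else 0 := by
    rw [Finset.sum_ite_eq']
    simp
  rw [h1, ← Finset.sum_sub_distrib]
  refine (Finset.abs_sum_le_sum_abs _ _).trans ?_
  unfold coll tl
  apply Finset.sum_le_sum
  intro y _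
  by_cases hyx : y = x
  · subst hyx
    simp [hx]
  · by_cases hy : h r y = h r x
    · by_cases hN : N₀ ≤ (y : ℕ)
      · simp [hyx, hy, hN]
      · simp [hyx, hN]
    · simp [hyx, hy]

/-- The sketch is accurate at `x` when few repetitions are bad at `x`. -/
lemma sk_good {M w d : ℕ} {N₀ : ℕ} (h : Fin d → Fin M → Fin w) {f : B ℕ}
    (hf : f ∈ F) {e τ : ℝ} (he : τ ≤ e) (he0 : 0 ≤ e) (heM : 1 / ((M : ℝ) + 1) ≤ e)
    (hgood : ∀ x : Fin M, N₀ ≤ (x : ℕ) →
      d < 2 * (Finset.univ.filter (fun r => coll (tl M N₀ f) (h r) x ≤ τ)).card) :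
    ‖f - (sk N₀ h).run f‖ ≤ e := by
  unfold sk
  rw [NA_run, BoundedContinuousFunction.norm_le he0]
  intro x
  rw [BoundedContinuousFunction.sub_apply, Real.norm_eq_abs]
  unfold skOut
  rw [cut_apply]
  by_cases hxM : x < M
  · rw [if_pos hxM, dif_pos hxM]
    by_cases hxN : x < N₀
    · rw [if_pos hxN]
      show |f x - (if x < N₀ + d * w then skL N₀ h x f else 0)| ≤ e
      rw [if_pos (by omega), skL_low h hxN, sub_self, abs_zero]
      exact he0
    · rw [if_neg hxN]
      have hw : ∀ r : Fin d, N₀ + (r : ℕ) * w + (h r ⟨x, hxM⟩ : ℕ) < N₀ + d * w := by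
        intro r
        have h1 := (h r ⟨x, hxM⟩).2
        have h2 : ((r : ℕ) + 1) * w ≤ d * w := Nat.mul_le_mul_right w r.2
        rw [add_mul, one_mul] at h2
        omega
      simp only [hw, if_true]
      rw [abs_sub_comm]
      refine le_trans (med_close _ ?_) he
      refine lt_of_lt_of_le (hgood ⟨x, hxM⟩ (not_lt.mp hxN)) ?_
      apply Nat.mul_le_mul_left
      apply Finset.card_le_card
      intro r hr
      rw [Finset.mem_filter] at hr ⊢
      exact ⟨hr.1, (bucket_err h r ⟨x, hxM⟩ (not_lt.mp hxN) f).trans hr.2⟩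
  · rw [if_neg hxM, sub_zero]
    refine (F_apply hf x).trans (le_trans ?_ heM)
    have : (M : ℝ) ≤ (x : ℝ) := by exact_mod_cast (not_lt.mp hxM)
    gcongr

lemma coll_le {M w : ℕ} {a : Fin M → ℝ} (ha : ∀ y, 0 ≤ a y) (g : Fin M → Fin w) (x : Fin M) :
    coll a g x ≤ ∑ y, a y := by
  unfold coll
  apply Finset.sum_le_sum
  intro y _
  split_ifs
  · exact le_rfl
  · exact ha y

/-- The sketch always has error at most one. -/
lemma sk_crude {M w d : ℕ} {N₀ : ℕ} (hd : 0 < d) (h : Fin d → Fin M → Fin w)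
    {f : B ℕ} (hf : f ∈ F) : ‖f - (sk N₀ h).run f‖ ≤ 1 := by
  apply sk_good h hf (τ := 1) le_rfl zero_le_one
  · rw [div_le_one (by positivity)]
    linarith [(Nat.cast_nonneg M : (0 : ℝ) ≤ M)]
  · intro x hx
    have h1 : ∀ r : Fin d, coll (tl M N₀ f) (h r) x ≤ 1 := by
      intro r
      refine (coll_le (tl_nonneg M N₀ f) _ _).trans ((tl_sum hf).trans ?_)
      rw [div_le_one (by positivity)]
      linarith [(Nat.cast_nonneg N₀ : (0 : ℝ) ≤ N₀)]
    rw [Finset.filter_true_of_mem (fun r _ => h1 r)]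
    simp
    omega

/-- Error bound for the random sketch. -/
lemma lin_upper_aux {n N₀ M w d : ℕ} (hw : 0 < w) (hd : 0 < d)
    (hn : N₀ + d * w ≤ n) {e : ℝ} (he : 16 * (1 / ((N₀ : ℝ) + 1)) / w ≤ e)
    (heM : 1 / ((M : ℝ) + 1) ≤ e) :
    ranError (linInfo ℕ) F n ≤ ENNReal.ofReal (e + M / 2 ^ d) := by
  classical
  have hw' : (0 : ℝ) < w := by exact_mod_cast hw
  have he0 : 0 ≤ e := le_trans (by positivity) heM
  have : NeZero w := ⟨hw.ne'⟩
  let Ω := Fin d → Fin M → Fin w
  let _ : MeasurableSpace Ω := ⊤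
  have hcard : (Fintype.card Ω : ℝ≥0∞) ≠ 0 := by
    exact_mod_cast (Fintype.card_pos (α := Ω)).ne'
  have hcard' : (Fintype.card Ω : ℝ≥0∞) ≠ ∞ := ENNReal.natCast_ne_top _
  let μ : Measure Ω := (Fintype.card Ω : ℝ≥0∞)⁻¹ • Measure.count
  have hμ : IsProbabilityMeasure μ := by
    constructor
    simp only [μ, Measure.smul_apply, smul_eq_mul]
    rw [← Finset.coe_univ, Measure.count_apply_finset, Finset.card_univ]
    exact ENNReal.inv_mul_cancel hcard hcard'
  have h1 : ranError (linInfo ℕ) F n ≤ ⨆ f ∈ F, ∫⁻ h : Ω, ENNReal.ofReal ‖f - (sk N₀ h).run f‖ ∂μ := by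
    apply sInf_le
    refine ⟨Ω, ⊤, μ, fun h => sk N₀ h, hμ, fun h => ⟨hn, fun _ => trivial⟩, ?_, rfl⟩
    intro f _
    exact measurable_from_top
  refine h1.trans ?_
  apply iSup₂_le
  intro f hf
  have hint : ∫⁻ h : Ω, ENNReal.ofReal ‖f - (sk N₀ h).run f‖ ∂μ
      = (Fintype.card Ω : ℝ≥0∞)⁻¹ * ∑ h : Ω, ENNReal.ofReal ‖f - (sk N₀ h).run f‖ := by
    simp only [μ]
    rw [lintegral_smul_measure, lintegral_count, tsum_fintype, smul_eq_mul]
  -- the bad hash functions
  let BX : Fin M → Finset (Fin M → Fin w) := fun x => Finset.univ.filter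
    (fun g : Fin M → Fin w => 16 * (1 / ((N₀ : ℝ) + 1)) / w < coll (tl M N₀ f) g x)
  let Bad : Finset Ω := Finset.univ.biUnion (fun x : Fin M => Finset.univ.filter
    (fun h : Ω => 2 * (Finset.univ.filter (fun r => h r ∉ BX x)).card ≤ d))
  have hBX : ∀ x : Fin M, 16 * (BX x).card ≤ Fintype.card (Fin M → Fin w) := fun x =>
    card_coll_bad hw (tl_nonneg M N₀ f) (by positivity) (tl_sum hf) x
  have hBadcard : ((2 : ℝ) ^ d) * (Bad.card : ℝ) ≤ M * Fintype.card Ω := by
    have h2 : 2 ^ d * Bad.card ≤ M * Fintype.card Ω := by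
      calc 2 ^ d * Bad.card ≤ 2 ^ d * ∑ x : Fin M, (Finset.univ.filter
            (fun h : Ω => 2 * (Finset.univ.filter (fun r => h r ∉ BX x)).card ≤ d)).card := by
            gcongr
            exact Finset.card_biUnion_le
        _ = ∑ x : Fin M, 2 ^ d * (Finset.univ.filter
            (fun h : Ω => 2 * (Finset.univ.filter (fun r => h r ∉ BX x)).card ≤ d)).card := by
            rw [Finset.mul_sum]
        _ ≤ ∑ x : Fin M, Fintype.card Ω := by
            apply Finset.sum_le_sum
            intro x _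
            have := card_half_bad (BX x) (hBX x) d
            rwa [show Fintype.card Ω = Fintype.card (Fin M → Fin w) ^ d by
              rw [Fintype.card_fun, Fintype.card_fin]]
        _ = M * Fintype.card Ω := by simp
    exact_mod_cast h2
  have hpt : ∀ h : Ω, ‖f - (sk N₀ h).run f‖ ≤ e + (if h ∈ Bad then 1 else 0) := by
    intro h
    by_cases hB : h ∈ Bad
    · rw [if_pos hB]
      have := sk_crude (N₀ := N₀) hd h hf
      linarith
    · rw [if_neg hB, add_zero]
      apply sk_good h hf he he0 heM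
      intro x _
      by_contra hcon
      apply hB
      rw [Finset.mem_biUnion]
      refine ⟨x, Finset.mem_univ _, ?_⟩
      rw [Finset.mem_filter]
      refine ⟨Finset.mem_univ _, ?_⟩
      push Not at hcon
      refine le_trans (Nat.mul_le_mul_left 2 (Finset.card_le_card ?_)) hcon
      intro r hr
      rw [Finset.mem_filter] at hr ⊢
      refine ⟨hr.1, ?_⟩
      by_contra hlt
      exact hr.2 (Finset.mem_filter.mpr ⟨Finset.mem_univ _, not_le.mp hlt⟩)
  have hsum : ∑ h : Ω, ‖f - (sk N₀ h).run f‖ ≤ Fintype.card Ω * (e + M / 2 ^ d) := by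
    calc ∑ h : Ω, ‖f - (sk N₀ h).run f‖ ≤ ∑ h : Ω, (e + (if h ∈ Bad then 1 else 0)) :=
          Finset.sum_le_sum fun h _ => hpt h
      _ = Fintype.card Ω * e + Bad.card := by
          rw [Finset.sum_add_distrib, Finset.sum_const, Finset.card_univ, nsmul_eq_mul]
          simp
      _ ≤ Fintype.card Ω * e + Fintype.card Ω * (M / 2 ^ d) := by
          gcongr
          rw [← mul_div_assoc, le_div_iff₀ (by positivity)]
          linarith [hBadcard]
      _ = Fintype.card Ω * (e + M / 2 ^ d) := by ring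
  rw [hint, ← ENNReal.ofReal_sum_of_nonneg (fun h _ => norm_nonneg _)]
  calc (Fintype.card Ω : ℝ≥0∞)⁻¹ * ENNReal.ofReal (∑ h : Ω, ‖f - (sk N₀ h).run f‖)
      ≤ (Fintype.card Ω : ℝ≥0∞)⁻¹ * ENNReal.ofReal (Fintype.card Ω * (e + M / 2 ^ d)) := by
        gcongr
    _ = ENNReal.ofReal (e + M / 2 ^ d) := by
        rw [ENNReal.ofReal_mul (by positivity), ENNReal.ofReal_natCast, ← mul_assoc,
          ENNReal.inv_mul_cancel hcard hcard', one_mul]

/-! ### Asymptotics -/

lemma lin_upper {n : ℕ} (hn : 1 ≤ n) : ranError (linInfo ℕ) F n ≤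
    ENNReal.ofReal (513 * ((Nat.log 2 n + 1 : ℕ) : ℝ) ^ 2 / (n : ℝ) ^ 2) := by
  set L : ℕ := Nat.log 2 n + 1 with hL
  have hL1 : 1 ≤ L := by omega
  have hnR : (1 : ℝ) ≤ n := by exact_mod_cast hn
  have hLR : (1 : ℝ) ≤ L := by exact_mod_cast hL1
  set w : ℕ := (n / 2) / (4 * L) with hw
  rcases Nat.eq_zero_or_pos w with hw0 | hwpos
  · -- small `n`: the zero algorithm
    have h1 : n / 2 < 4 * L := by
      rw [hw] at hw0
      exact (Nat.div_eq_zero_iff_lt (by omega)).mp hw0
    have h2 : n ≤ 8 * L := by omega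
    have h2R : (n : ℝ) ≤ 8 * L := by exact_mod_cast h2
    have h3 : ranError (linInfo ℕ) F n ≤ ENNReal.ofReal 1 := by
      apply ranError_le_det (NA 0 (fun _ => 0) (fun _ => 0)) (Nat.zero_le n) (fun _ => Set.mem_univ _)
      intro f hf
      rw [NA_run, sub_zero]
      exact F_norm hf
    refine h3.trans (ENNReal.ofReal_le_ofReal ?_)
    rw [le_div_iff₀ (by positivity), one_mul]
    nlinarith
  · have hwR : (0 : ℝ) < w := by exact_mod_cast hwpos
    have h1 : n / 2 + 4 * L * w ≤ n := by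
      have := Nat.mul_div_le (n / 2) (4 * L)
      rw [← hw] at this
      omega
    have h2 : n / 2 < 4 * L * (w + 1) := by
      have := Nat.lt_mul_div_succ (n / 2) (show 0 < 4 * L by omega)
      rwa [← hw] at this
    have h3 : n ≤ 16 * L * w := by
      have h4 : 4 * L * (w + 1) ≤ 4 * L * (2 * w) := by
        apply Nat.mul_le_mul_left
        omega
      have h5 : 4 * L * (2 * w) = 8 * L * w := by ring
      have h6 : 16 * L * w = 2 * (8 * L * w) := by ring
      rw [h6]
      omega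
    have h3R : (n : ℝ) ≤ 16 * L * w := by exact_mod_cast h3
    have h7 : (n : ℝ) / 2 ≤ ((n / 2 : ℕ) : ℝ) + 1 := by
      have : n ≤ 2 * (n / 2) + 1 := by omega
      have : (n : ℝ) ≤ 2 * ((n / 2 : ℕ) : ℝ) + 1 := by exact_mod_cast this
      linarith
    have key := lin_upper_aux (n := n) (N₀ := n / 2) (M := n ^ 2) (w := w) (d := 4 * L) hwpos
      (by omega) h1 (e := 512 * L / (n : ℝ) ^ 2) ?_ ?_
    · refine key.trans (ENNReal.ofReal_le_ofReal ?_)
      have h8 : (n : ℝ) ≤ 2 ^ L := by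
        have := (Nat.lt_pow_succ_log_self (b := 2) (by norm_num) n).le
        exact_mod_cast this
      have h9 : (n : ℝ) ^ 4 ≤ 2 ^ (4 * L) := by
        rw [mul_comm 4 L, pow_mul]
        gcongr
      have h10 : (((n ^ 2 : ℕ) : ℝ)) / 2 ^ (4 * L) ≤ 1 / (n : ℝ) ^ 2 := by
        rw [div_le_div_iff₀ (by positivity) (by positivity)]
        push_cast
        nlinarith
      have h11 : 512 * (L : ℝ) / (n : ℝ) ^ 2 + 1 / (n : ℝ) ^ 2 ≤ 513 * (L : ℝ) ^ 2 / (n : ℝ) ^ 2 := by
        rw [← add_div]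
        gcongr
        nlinarith
      linarith
    · rw [div_le_div_iff₀ hwR (by positivity)]
      have h12 : 1 / (((n / 2 : ℕ) : ℝ) + 1) ≤ 2 / n := by
        rw [div_le_div_iff₀ (by positivity) (by positivity)]
        linarith
      calc 16 * (1 / (((n / 2 : ℕ) : ℝ) + 1)) * (n : ℝ) ^ 2 ≤ 16 * (2 / n) * (n : ℝ) ^ 2 := by
            gcongr
        _ = 32 * (n : ℝ) := by field_simp; ring
        _ ≤ 512 * (L : ℝ) * (w : ℝ) := by linarith
    · have : (((n ^ 2 : ℕ) : ℝ)) = (n : ℝ) ^ 2 := by push_cast; ring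
      rw [this, div_le_div_iff₀ (by positivity) (by positivity)]
      nlinarith [sq_nonneg (n : ℝ)]

lemma log_bound {ε : ℝ} (hε : 0 < ε) {n : ℕ} (hn : 1 ≤ n) :
    ((Nat.log 2 n + 1 : ℕ) : ℝ) ≤ (1 + 2 / ε) * (n : ℝ) ^ ε := by
  have hnR : (1 : ℝ) ≤ n := by exact_mod_cast hn
  have h1 : (Nat.log 2 n : ℝ) ≤ Real.logb 2 n := by
    have := Real.natLog_le_logb n 2
    simpa using this
  have h2 : Real.logb 2 n ≤ 2 * Real.log n := by
    unfold Real.logb
    have h3 : (1 / 2 : ℝ) < Real.log 2 := by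
      have := Real.log_two_gt_d9
      linarith
    rw [div_le_iff₀ (by linarith)]
    have h4 : 0 ≤ Real.log n := Real.log_nonneg hnR
    nlinarith
  have h3 : Real.log n ≤ (n : ℝ) ^ ε / ε := Real.log_le_rpow_div (by linarith) hε
  have h4 : (1 : ℝ) ≤ (n : ℝ) ^ ε := Real.one_le_rpow hnR hε.le
  push_cast
  calc (Nat.log 2 n : ℝ) + 1 ≤ 2 * ((n : ℝ) ^ ε / ε) + (n : ℝ) ^ ε := by linarith
    _ = (1 + 2 / ε) * (n : ℝ) ^ ε := by ring

lemma two_le_rate : 2 ≤ rate (ranError (linInfo ℕ) F) := by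
  by_contra hlt
  push Not at hlt
  obtain ⟨α, hα1, hα2⟩ := exists_between hlt
  have hαtop : α ≠ ∞ := (hα2.trans (by norm_num)).ne
  refine absurd (le_sSup (s := {α : ℝ≥0∞ | α ≠ ∞ ∧
    (⨆ (n : ℕ) (_ : 1 ≤ n), (n : ℝ≥0∞) ^ α.toReal * ranError (linInfo ℕ) F n) < ∞})
    ⟨hαtop, ?_⟩) (not_le.mpr hα1)
  set a : ℝ := α.toReal with ha
  have ha0 : 0 ≤ a := ENNReal.toReal_nonneg
  have ha2 : a < 2 := by
    have := (ENNReal.toReal_lt_toReal hαtop (by norm_num : (2 : ℝ≥0∞) ≠ ∞)).mpr hα2
    simpa using this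
  set ε : ℝ := (2 - a) / 2 with hε
  have hε0 : 0 < ε := by rw [hε]; linarith
  refine lt_of_le_of_lt (b := ENNReal.ofReal (513 * (1 + 2 / ε) ^ 2)) ?_ ENNReal.ofReal_lt_top
  apply iSup₂_le
  intro n hn
  have hnR : (1 : ℝ) ≤ n := by exact_mod_cast hn
  have hn0 : (0 : ℝ) < n := by linarith
  calc (n : ℝ≥0∞) ^ a * ranError (linInfo ℕ) F n
      ≤ ENNReal.ofReal ((n : ℝ) ^ a) *
        ENNReal.ofReal (513 * ((Nat.log 2 n + 1 : ℕ) : ℝ) ^ 2 / (n : ℝ) ^ 2) := by
        rw [← ENNReal.ofReal_rpow_of_nonneg hn0.le ha0, ENNReal.ofReal_natCast]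
        gcongr
        exact lin_upper hn
    _ = ENNReal.ofReal ((n : ℝ) ^ a * (513 * ((Nat.log 2 n + 1 : ℕ) : ℝ) ^ 2 / (n : ℝ) ^ 2)) := by
        rw [ENNReal.ofReal_mul (by positivity)]
    _ ≤ ENNReal.ofReal (513 * (1 + 2 / ε) ^ 2) := by
        apply ENNReal.ofReal_le_ofReal
        have h1 := log_bound hε0 hn
        have h2 : ((Nat.log 2 n + 1 : ℕ) : ℝ) ^ 2 ≤ ((1 + 2 / ε) * (n : ℝ) ^ ε) ^ 2 := by
          gcongr
        have h3 : ((n : ℝ) ^ ε) ^ 2 * (n : ℝ) ^ a = (n : ℝ) ^ 2 := by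
          rw [← Real.rpow_natCast ((n : ℝ) ^ ε) 2, ← Real.rpow_mul hn0.le, ← Real.rpow_add hn0,
            ← Real.rpow_natCast (n : ℝ) 2]
          congr 1
          rw [hε]
          push_cast
          ring
        calc (n : ℝ) ^ a * (513 * ((Nat.log 2 n + 1 : ℕ) : ℝ) ^ 2 / (n : ℝ) ^ 2)
            ≤ (n : ℝ) ^ a * (513 * ((1 + 2 / ε) * (n : ℝ) ^ ε) ^ 2 / (n : ℝ) ^ 2) := by
              gcongr
          _ = 513 * (1 + 2 / ε) ^ 2 * ((((n : ℝ) ^ ε) ^ 2 * (n : ℝ) ^ a) / (n : ℝ) ^ 2) := by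
              ring
          _ = 513 * (1 + 2 / ε) ^ 2 := by
              rw [h3, div_self (by positivity), mul_one]

lemma one_le_rate : 1 ≤ rate (ranError (stdInfo ℕ) F) := by
  apply le_sSup
  refine ⟨by norm_num, ?_⟩
  refine lt_of_le_of_lt (b := 1) ?_ ENNReal.one_lt_top
  apply iSup₂_le
  intro n hn
  calc (n : ℝ≥0∞) ^ (1 : ℝ≥0∞).toReal * ranError (stdInfo ℕ) F n
      ≤ ENNReal.ofReal n * ENNReal.ofReal (1 / ((n : ℝ) + 1)) := by
        rw [ENNReal.toReal_one, ENNReal.rpow_one, ENNReal.ofReal_natCast]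
        gcongr
        exact std_upper n
    _ = ENNReal.ofReal (n * (1 / ((n : ℝ) + 1))) := by rw [ENNReal.ofReal_mul (by positivity)]
    _ ≤ ENNReal.ofReal 1 := by
        apply ENNReal.ofReal_le_ofReal
        rw [mul_one_div, div_le_one (by positivity)]
        linarith
    _ = 1 := ENNReal.ofReal_one

lemma rate_le_one : rate (ranError (stdInfo ℕ) F) ≤ 1 := by
  apply sSup_le
  rintro α ⟨hαtop, hα⟩
  by_contra hlt
  push Not at hlt
  set a : ℝ := α.toReal with ha
  have ha0 : 0 ≤ a := ENNReal.toReal_nonneg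
  have ha1 : 1 < a := by
    have := (ENNReal.toReal_lt_toReal ENNReal.one_ne_top hαtop).mpr hlt
    simpa using this
  set C := ⨆ (n : ℕ) (_ : 1 ≤ n), (n : ℝ≥0∞) ^ a * ranError (stdInfo ℕ) F n with hC
  have hbound : ∀ n : ℕ, 1 ≤ n → (n : ℝ) ^ (a - 1) ≤ 4 * C.toReal := by
    intro n hn
    have hnR : (1 : ℝ) ≤ n := by exact_mod_cast hn
    have hn0 : (0 : ℝ) < n := by linarith
    have h1 : (n : ℝ≥0∞) ^ a * ranError (stdInfo ℕ) F n ≤ C :=
      le_iSup₂ (f := fun (n : ℕ) (_ : 1 ≤ n) => (n : ℝ≥0∞) ^ a * ranError (stdInfo ℕ) F n) n hn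
    have h2 : ENNReal.ofReal ((n : ℝ) ^ a * (1 / (4 * n))) ≤ C := by
      refine le_trans ?_ h1
      rw [ENNReal.ofReal_mul (by positivity), ← ENNReal.ofReal_rpow_of_nonneg hn0.le ha0,
        ENNReal.ofReal_natCast]
      gcongr
      refine le_trans (le_of_eq ?_) (std_lower hn)
      rw [ENNReal.ofReal_div_of_pos (by positivity), ENNReal.ofReal_one,
        ENNReal.ofReal_mul (by norm_num), ENNReal.ofReal_natCast]
      norm_num
    have h3 : (n : ℝ) ^ a * (1 / (4 * n)) ≤ C.toReal :=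
      (ENNReal.ofReal_le_iff_le_toReal hα.ne).mp h2
    have h4 : (n : ℝ) ^ (a - 1) = (n : ℝ) ^ a / n := by
      rw [Real.rpow_sub hn0, Real.rpow_one]
    rw [h4]
    have h5 : (n : ℝ) ^ a * (1 / (4 * n)) = ((n : ℝ) ^ a / n) / 4 := by
      field_simp
    linarith
  have htend : Filter.Tendsto (fun n : ℕ => (n : ℝ) ^ (a - 1)) Filter.atTop Filter.atTop :=
    (tendsto_rpow_atTop (by linarith)).comp tendsto_natCast_atTop_atTop
  obtain ⟨n, hn1, hn2⟩ := ((htend.eventually_gt_atTop (4 * C.toReal)).and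
    (Filter.eventually_ge_atTop 1)).exists
  exact absurd (hbound n hn2) (not_le.mpr hn1)

/-- **The loss one is attained for randomized uniform approximation.**  There is a convex symmetric
set `F` of bounded functions on a (countable) set for which the rate of randomized algorithms using
function values is exactly `1` while the rate of randomized algorithms using arbitrary linear
information is at least `2`. -/
theorem result : ∃ F : Set (B ℕ), Convex ℝ F ∧ (∀ f ∈ F, -f ∈ F) ∧
    rate (ranError (stdInfo ℕ) F) = 1 ∧ 2 ≤ rate (ranError (linInfo ℕ) F) :=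
  ⟨F, F_convex, F_symm, le_antisymm rate_le_one one_le_rate, two_le_rate⟩

end Pool.Agent.Results.MP_fa1f9f_an.LossOne
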